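import Mathlib
import Pool.Agent.R820.HF.CoDiag

set_option autoImplicit false

namespace Pool.Agent.Results.MP_7165d8_gt.SeparableHausdorff

open Set Topology

universe u

/-- The co-diagonal of `X`, with the subspace topology of the product `X × X`. -/
abbrev CoDiagonal (X : Type u) : Type u := {p : X × X // p.1 ≠ p.2}

/-- The closure of every discrete subset is Lindelöf. -/
def DiscretelyLindelof (Z : Type u) [TopologicalSpace Z] : Prop :=
  ∀ D : Set Z, DiscreteTopology D → IsLindelof (closure D)

/-- Let `X` be a Hausdorff space whose co-diagonal is discretely Lindelöf. Then the closure of every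
countable subset of `X` is Lindelöf; in particular, if `X` is separable, then `X` is Lindelöf. -/
theorem result {X : Type u} [TopologicalSpace X] [T2Space X]
    (h : DiscretelyLindelof (CoDiagonal X)) :
    (∀ Q : Set X, Q.Countable → IsLindelof (closure Q)) ∧
      (TopologicalSpace.SeparableSpace X → LindelofSpace X) := by
  refine ⟨fun Q hQ => ?_, fun _ => Pool.Agent.R820.CoDiag.main h⟩
  have hsep : TopologicalSpace.SeparableSpace (closure Q) := by
    refine ⟨{y : closure Q | y.1 ∈ Q}, hQ.preimage_of_injOn Subtype.val_injective.injOn, ?_⟩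
    rw [Subtype.dense_iff]
    refine closure_mono ?_
    intro y hy
    exact ⟨⟨y, subset_closure hy⟩, hy, rfl⟩
  let j : CoDiagonal (closure Q) → CoDiagonal X :=
    fun z => ⟨(z.1.1.1, z.1.2.1), fun h => z.2 (Subtype.ext h)⟩
  have hjc : Continuous j := by
    refine Continuous.subtype_mk ?_ _
    exact (continuous_subtype_val.comp (continuous_fst.comp continuous_subtype_val)).prodMk
      (continuous_subtype_val.comp (continuous_snd.comp continuous_subtype_val))
  have hind : IsInducing j := by
    refine IsInducing.of_comp hjc continuous_subtype_val ?_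
    exact (IsInducing.subtypeVal.prodMap IsInducing.subtypeVal).comp
      (IsInducing.subtypeVal (t := {p : (closure Q) × (closure Q) | p.1 ≠ p.2}))
  have hinj : Function.Injective j := by
    intro z w hzw
    have h1 := congrArg (fun p => p.1.1) hzw
    have h2 := congrArg (fun p => p.1.2) hzw
    exact Subtype.ext (Prod.ext (Subtype.ext h1) (Subtype.ext h2))
  have hrange : range j = {w | w.1.1 ∈ closure Q ∧ w.1.2 ∈ closure Q} := by
    ext w
    constructor
    · rintro ⟨z, rfl⟩
      exact ⟨z.1.1.2, z.1.2.2⟩
    · rintro ⟨h1, h2⟩
      exact ⟨⟨(⟨w.1.1, h1⟩, ⟨w.1.2, h2⟩), fun h => w.2 (congrArg Subtype.val h)⟩, rfl⟩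
  have hclosed : IsClosed (range j) := by
    rw [hrange]
    exact (isClosed_closure.preimage (continuous_fst.comp continuous_subtype_val)).inter
      (isClosed_closure.preimage (continuous_snd.comp continuous_subtype_val))
  have hemb : IsEmbedding j := ⟨hind, hinj⟩
  have hce : IsClosedEmbedding j := ⟨hemb, hclosed⟩
  have hY : LindelofSpace (closure Q) := by
    refine Pool.Agent.R820.CoDiag.main fun D hD => ?_
    have h1 : DiscreteTopology (j '' D) := (hemb.homeomorphImage D).symm.isEmbedding.discreteTopology
    rw [hind.closure_eq_preimage_closure_image]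
    exact hce.isLindelof_preimage (h _ h1)
  exact isLindelof_iff_lindelofSpace.2 hY

end Pool.Agent.Results.MP_7165d8_gt.SeparableHausdorff
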